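import Pool.Agent.H507R3.PCHull

/-!
# The rank-one convex hull of the planar stationarity inclusion set can be strictly larger

There are a strictly polyconvex function `f` of class `C¹` on the real `10 × 2` matrices and `R > 0`
such that the rank-one convex hull of `K_R = K_f ∩ B̄_R(0)` contains a matrix which is not in `K_f`.
-/

set_option autoImplicit false
open Set

namespace Pool.Agent.Results.MP_f3a7de_an.HullNotTrivial

/-- Index set of all minors of an `n × 2` matrix: the size `k + 1 ≤ min n 2`, the `k + 1` rows and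
the `k + 1` columns. -/
abbrev MinorIdx (n : ℕ) : Type := Σ k : Fin (min n 2),
  {r : Fin (k.1 + 1) → Fin n // StrictMono r} × {c : Fin (k.1 + 1) → Fin 2 // StrictMono c}

/-- The vector `Φ(X)` of all minors of an `n × 2` matrix `X`: its entries and, if `n ≥ 2`, its
`2 × 2` determinants formed from pairs of rows. -/
noncomputable def minors {n : ℕ} (X : Fin n → Fin 2 → ℝ) : MinorIdx n → ℝ :=
  fun p => Matrix.det ((Matrix.of X).submatrix p.2.1.1 p.2.2.1)

open Classical in
/-- `f` is strictly polyconvex: `f = g ∘ Φ` for a strictly convex function `g` of class `C¹`. -/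
def StrictlyPolyconvex {n : ℕ} (f : (Fin n → Fin 2 → ℝ) → ℝ) : Prop :=
  ∃ g : (MinorIdx n → ℝ) → ℝ, StrictConvexOn ℝ univ g ∧ ContDiff ℝ 1 g ∧ ∀ X, f X = g (minors X)

/-- The gradient `Df(X)`: the `n × 2` matrix of the partial derivatives of `f` at `X`. -/
noncomputable def grad {n : ℕ} (f : (Fin n → Fin 2 → ℝ) → ℝ) (X : Fin n → Fin 2 → ℝ) :
    Matrix (Fin n) (Fin 2) ℝ :=
  Matrix.of fun i j => fderiv ℝ f X (fun a b => if a = i ∧ b = j then (1 : ℝ) else 0)

/-- The rotation `J`. -/
def J : Matrix (Fin 2) (Fin 2) ℝ := !![0, 1; -1, 0]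

/-- The real `(2 n + 2) × 2` matrices, as three blocks of `n`, `n` and `2` rows. -/
abbrev BigMat (n : ℕ) : Type := Matrix (Fin n ⊕ (Fin n ⊕ Fin 2)) (Fin 2) ℝ

/-- The matrix obtained by stacking `X`, `Y_X = Df(X) J` and `Z_X = Xᵀ Y_X - f(X) J`. -/
noncomputable def stacked {n : ℕ} (f : (Fin n → Fin 2 → ℝ) → ℝ) (X : Fin n → Fin 2 → ℝ) :
    BigMat n :=
  Matrix.fromRows (Matrix.of X) (Matrix.fromRows (grad f X * J)
    ((Matrix.of X).transpose * (grad f X * J) - f X • J))

/-- The inclusion set `K_f`. -/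
def inclusionSet {n : ℕ} (f : (Fin n → Fin 2 → ℝ) → ℝ) : Set (BigMat n) := range (stacked f)

/-- The closed ball of radius `R` about `0` for the Euclidean (Hilbert-Schmidt) norm. -/
def closedBallHS (n : ℕ) (R : ℝ) : Set (BigMat n) := {P | ∑ i, ∑ j, P i j ^ 2 ≤ R ^ 2}

/-- `F` is rank-one convex: convex along all lines whose direction is a matrix of rank one. -/
def RankOneConvex {n : ℕ} (F : BigMat n → ℝ) : Prop :=
  ∀ A B : BigMat n, B.rank = 1 → ConvexOn ℝ univ (fun t : ℝ => F (A + t • B))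

/-- The rank-one convex hull of `K`. -/
def rcHull {n : ℕ} (K : Set (BigMat n)) : Set (BigMat n) :=
  {A | ∀ F : BigMat n → ℝ, RankOneConvex F → (∀ P ∈ K, F P ≤ 0) → F A ≤ 0}

open Pool.Agent.H507R3.PC in
/-- multiplication of the second and the third block by `J` from the right -/
noncomputable def turn (P : T3) : BigMat 10 :=
  Matrix.fromRows (Matrix.of P.1) (Matrix.fromRows (Matrix.of P.2.1 * J) (Matrix.of P.2.2 * J))

open Pool.Agent.H507R3.PC in
lemma turn_add_smul (P Q : T3) (t : ℝ) : turn (P + t • Q) = turn P + t • turn Q := by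
  ext i j
  rcases i with i | i | i
  · rfl
  · simp [turn, Matrix.mul_apply, Fin.sum_univ_two]
    ring
  · simp [turn, Matrix.mul_apply, Fin.sum_univ_two]
    ring

/-- a matrix with rows `w i • ξ` has rank at most one -/
lemma rank_zero_or_one {n : ℕ} (B : BigMat n) (w : Fin n ⊕ (Fin n ⊕ Fin 2) → ℝ) (ξ : Fin 2 → ℝ)
    (h : ∀ i j, B i j = w i * ξ j) : B = 0 ∨ B.rank = 1 := by
  by_cases h0 : B = 0
  · exact Or.inl h0
  · right
    have hB : B = Matrix.vecMulVec w ξ := by
      ext i j; rw [h]; rfl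
    apply le_antisymm
    · rw [hB]; exact Matrix.rank_vecMulVec_le w ξ
    · rw [Nat.one_le_iff_ne_zero]
      intro hr
      apply h0
      rw [Matrix.rank, Module.finrank_eq_zero_iff_of_free] at hr
      ext i j
      have h1 : B.mulVec (Pi.single j 1) = 0 := by
        have h2 : B.mulVecLin (Pi.single j 1) ∈ LinearMap.range B.mulVecLin :=
          LinearMap.mem_range_self _ _
        have h3 := hr.elim ⟨_, h2⟩ 0
        exact congrArg Subtype.val h3
      have h4 := congrFun h1 i
      simpa using h4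

lemma convex_along {n : ℕ} {F : BigMat n → ℝ} (hF : RankOneConvex F) (A B : BigMat n)
    (hB : B = 0 ∨ B.rank = 1) : ConvexOn ℝ univ (fun t : ℝ => F (A + t • B)) := by
  rcases hB with h | h
  · subst h
    simp only [smul_zero, add_zero]
    exact convexOn_const _ convex_univ
  · exact hF A B h

open Pool.Agent.H507R3.PC in
lemma lamConv {F : BigMat 10 → ℝ} (hF : RankOneConvex F) : LamConv (fun P => F (turn P)) := by
  intro A B hB
  obtain ⟨ξ, hξ, hY, hZ, u, hu⟩ := hB
  have key : turn B = 0 ∨ (turn B).rank = 1 := by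
    have hy : ∀ i, ∃ v : ℝ, ∀ j, (Matrix.of B.2.1 * J) i j = v * ξ j := by
      intro i
      have h1 := hY i
      rw [Fin.sum_univ_two] at h1 hξ
      refine ⟨B.2.1 i 0 * ξ 1 - B.2.1 i 1 * ξ 0, fun j => ?_⟩
      fin_cases j
      · simp [Matrix.mul_apply, Fin.sum_univ_two, J]
        linear_combination (B.2.1 i 1) * hξ - (ξ 1) * h1
      · simp [Matrix.mul_apply, Fin.sum_univ_two, J]
        linear_combination (-B.2.1 i 0) * hξ + (ξ 0) * h1
    have hz : ∀ i, ∃ v : ℝ, ∀ j, (Matrix.of B.2.2 * J) i j = v * ξ j := by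
      intro i
      have h1 := hZ i
      rw [Fin.sum_univ_two] at h1 hξ
      refine ⟨B.2.2 i 0 * ξ 1 - B.2.2 i 1 * ξ 0, fun j => ?_⟩
      fin_cases j
      · simp [Matrix.mul_apply, Fin.sum_univ_two, J]
        linear_combination (B.2.2 i 1) * hξ - (ξ 1) * h1
      · simp [Matrix.mul_apply, Fin.sum_univ_two, J]
        linear_combination (-B.2.2 i 0) * hξ + (ξ 0) * h1
    choose v hv using hy
    choose z hz' using hz
    refine rank_zero_or_one (turn B) (Sum.elim u (Sum.elim v z)) ξ ?_
    rintro (i | i | i) j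
    · exact hu i j
    · exact hv i j
    · exact hz' i j
  have := convex_along hF (turn A) (turn B) key
  simpa only [turn_add_smul] using this

open Pool.Agent.H507R3.PC in
/-- **Disproof of `K_R^{rc} = K_R`.** There are a strictly polyconvex function `f` of class `C¹` on
the real `10 × 2` matrices, `R > 0` and a matrix `A` in the rank-one convex hull of
`K_R = K_f ∩ B̄_R(0)` which is not in `K_f`, so not in `K_R`. -/
theorem result : ∃ f : (Fin 10 → Fin 2 → ℝ) → ℝ, ContDiff ℝ 1 f ∧ StrictlyPolyconvex f ∧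
    ∃ R : ℝ, 0 < R ∧ ∃ A : BigMat 10,
      A ∈ rcHull (inclusionSet f ∩ closedBallHS 10 R) ∧ A ∉ inclusionSet f := by
  classical
  obtain ⟨g, hsc, hcd, hleaf⟩ := exists_g
  have hminors : ∀ Y : Fin 10 → Fin 2 → ℝ, minors Y = Phi Y := fun Y => rfl
  set f : (Fin 10 → Fin 2 → ℝ) → ℝ := fun Z => g (Phi Z) with hf
  have hPhi : ContDiff ℝ 1 (Phi : Mt → Idx → ℝ) := by
    rw [contDiff_pi]
    intro p
    simp only [Phi, Matrix.det_apply]
    refine ContDiff.sum fun σ _ => ?_
    refine ContDiff.const_smul _ ?_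
    refine contDiff_prod fun i _ => ?_
    exact contDiff_apply_apply ℝ ℝ _ _
  have hY : ∀ (i : Fin 24) (k : Fin 10) (c : Fin 2),
      fderiv ℝ f (XR i) (fun a b => if a = k ∧ b = c then (1 : ℝ) else 0 : Fin 10 → Fin 2 → ℝ)
        = YR i k c := by
    intro i k c
    rw [(hleaf i).2]
    rw [Finset.sum_eq_single k]
    · rw [Finset.sum_eq_single c]
      · simp
      · intro b _ hb; simp [hb]
      · intro h; exact absurd (Finset.mem_univ c) h
    · intro b _ hb; simp [hb]
    · intro h; exact absurd (Finset.mem_univ k) h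
  have hst : ∀ i : Fin 24, stacked f (XR i) = turn (pt3 (XR i)) := by
    intro i
    have hg : grad f (XR i) = Matrix.of (YR i) := by
      ext k c
      exact hY i k c
    unfold stacked turn
    rw [hg]
    congr 2
    · show _ = Matrix.of (Yaff (XR i)) * J
      rw [YR_eq]
    · show _ = Matrix.of (Zaff (XR i)) * J
      have hZ : Matrix.of (Zaff (XR i)) = (Matrix.of (XR i)).transpose * Matrix.of (YR i)
          - f (XR i) • (1 : Matrix (Fin 2) (Fin 2) ℝ) := by
        ext a b
        show Zaff (XR i) a b = _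
        rw [ZR_eq, Matrix.sub_apply, Matrix.mul_apply, Matrix.smul_apply, Matrix.one_apply]
        rw [show f (XR i) = (Pool.Agent.H507R3.PC.fZ i : ℝ) from (hleaf i).1]
        rfl
      rw [hZ, Matrix.sub_mul, Matrix.mul_assoc, Matrix.smul_mul, Matrix.one_mul]
  refine ⟨f, hcd.comp hPhi, ⟨g, hsc, ?_, fun X => rfl⟩, ?_⟩
  · convert hcd
  set nrm : BigMat 10 → ℝ := fun P => ∑ i, ∑ j, P i j ^ 2 with hnrm
  have hn0 : ∀ P, 0 ≤ nrm P := by intro P; simp only [hnrm]; positivity
  set S : ℝ := ∑ i, nrm (stacked f (XR i)) with hS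
  have hS0 : 0 ≤ S := Finset.sum_nonneg fun i _ => hn0 _
  have hSi : ∀ i, nrm (stacked f (XR i)) ≤ S := fun i =>
    Finset.single_le_sum (f := fun i => nrm (stacked f (XR i)))
      (fun i _ => hn0 _) (Finset.mem_univ i)
  refine ⟨1 + S, by linarith, turn (pt3 (PR 0)), ?_, ?_⟩
  · intro F hF hFK
    apply hull_point (F := fun P => F (turn P)) (lamConv hF)
    intro i
    apply hFK
    refine ⟨⟨XR i, hst i⟩, ?_⟩
    show nrm (turn (pt3 (XR i))) ≤ (1 + S) ^ 2
    rw [← hst i]
    have h1 := hSi i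
    nlinarith
  · rintro ⟨X, hX⟩
    have hX0 : ∀ k j, X k j = PR 0 k j := fun k j =>
      congrFun (congrFun hX (Sum.inl k)) j
    have hX1 : ∀ k j, (grad f X * J) k j = (Matrix.of (Yaff (PR 0)) * J) k j := fun k j =>
      congrFun (congrFun hX (Sum.inr (Sum.inl k))) j
    have hX2 : ((Matrix.of X).transpose * (grad f X * J) - f X • J) 0 0
        = (Matrix.of (Zaff (PR 0)) * J) 0 0 :=
      congrFun (congrFun hX (Sum.inr (Sum.inr 0))) 0
    apply not_scalar
    have e1 : (Matrix.of (Zaff (PR 0)) * J) 0 0 = - Zaff (PR 0) 0 1 := by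
      simp [Matrix.mul_apply, Fin.sum_univ_two, J]
    have e2 : ((Matrix.of X).transpose * (grad f X * J) - f X • J) 0 0
        = ∑ k, PR 0 k 0 * (- Yaff (PR 0) k 1) := by
      rw [Matrix.sub_apply, Matrix.mul_apply, Matrix.smul_apply]
      have e3 : J 0 0 = 0 := by simp [J]
      rw [e3, smul_zero, sub_zero]
      apply Finset.sum_congr rfl
      intro k _
      rw [hX1]
      show X k 0 * _ = _
      rw [hX0]
      congr 1
      simp [Matrix.mul_apply, Fin.sum_univ_two, J]
    rw [e1, e2] at hX2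
    simp only [mul_neg, Finset.sum_neg_distrib] at hX2
    linarith

end Pool.Agent.Results.MP_f3a7de_an.HullNotTrivial
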